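import Mathlib
import Pool.Agent.TH591.Lie.Rep1

set_option autoImplicit false

/-!
# Operators on spaces of tensors

`V k n m` is the space of the `m`-tuples of tensors of order `k` over `ℝ^n`.
-/

namespace Pool.Agent.V11263.Ten

open scoped InnerProductSpace Matrix
open Pool.Agent.TH591.Lie

/-- `m`-tuples of tensors of order `k` over `ℝ^n`. -/
abbrev V (k n m : ℕ) := EuclideanSpace ℝ ((Fin k → Fin n) × Fin m)

/-- Operators of `ℝ^n`. -/
abbrev Op (n : ℕ) := EuclideanSpace ℝ (Fin n) →L[ℝ] EuclideanSpace ℝ (Fin n)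

variable {k n m : ℕ}

/-- The operator `C 0 ⊗ ⋯ ⊗ C (k-1)`. -/
noncomputable def actLin (C : Fin k → Matrix (Fin n) (Fin n) ℝ) : V k n m →ₗ[ℝ] V k n m where
  toFun T := WithLp.toLp 2 fun p => ∑ j : Fin k → Fin n, (∏ s, C s (p.1 s) (j s)) * T (j, p.2)
  map_add' T T' := by
    ext p
    simp [mul_add, Finset.sum_add_distrib]
  map_smul' c T := by
    ext p
    simp only [PiLp.smul_apply, smul_eq_mul, RingHom.id_apply, Finset.mul_sum]
    refine Finset.sum_congr rfl fun j _ => ?_
    ring

/-- The operator `C 0 ⊗ ⋯ ⊗ C (k-1)`. -/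
noncomputable def act (C : Fin k → Matrix (Fin n) (Fin n) ℝ) : V k n m →L[ℝ] V k n m :=
  LinearMap.toContinuousLinearMap (actLin C)

theorem act_apply (C : Fin k → Matrix (Fin n) (Fin n) ℝ) (T : V k n m) (i : Fin k → Fin n)
    (l : Fin m) : act C T (i, l) = ∑ j : Fin k → Fin n, (∏ s, C s (i s) (j s)) * T (j, l) := rfl

theorem act_one : act (1 : Fin k → Matrix (Fin n) (Fin n) ℝ) = (1 : V k n m →L[ℝ] V k n m) := by
  ext T ⟨i, l⟩
  rw [act_apply, Finset.sum_eq_single i]
  · simp
  · intro j _ hj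
    obtain ⟨s, hs⟩ := Function.ne_iff.mp hj
    rw [Finset.prod_eq_zero (Finset.mem_univ s), zero_mul]
    simp [Matrix.one_apply, Ne.symm hs]
  · simp

theorem act_mul (C D : Fin k → Matrix (Fin n) (Fin n) ℝ) :
    act (C * D) = (act C * act D : V k n m →L[ℝ] V k n m) := by
  ext T ⟨i, l⟩
  rw [mul_apply_eq_comp, act_apply, act_apply]
  have h1 : ∀ j : Fin k → Fin n, (∏ s, (C * D) s (i s) (j s))
      = ∑ u : Fin k → Fin n, (∏ s, C s (i s) (u s)) * ∏ s, D s (u s) (j s) := by
    intro j
    simp only [Pi.mul_apply, Matrix.mul_apply, ← Finset.prod_mul_distrib]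
    rw [Finset.prod_univ_sum, Fintype.piFinset_univ]
  simp only [h1, act_apply, Finset.sum_mul, Finset.mul_sum]
  rw [Finset.sum_comm]
  refine Finset.sum_congr rfl fun u _ => Finset.sum_congr rfl fun j _ => ?_
  ring

/-- `act` as a homomorphism of monoids. -/
noncomputable def actHom (k n m : ℕ) :
    (Fin k → Matrix (Fin n) (Fin n) ℝ) →* (V k n m →L[ℝ] V k n m) where
  toFun := act
  map_one' := act_one
  map_mul' := act_mul

/-- A matrix acting on the slot `s`. -/
noncomputable def D (s : Fin k) (A : Matrix (Fin n) (Fin n) ℝ) : V k n m →L[ℝ] V k n m :=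
  act (Pi.mulSingle s A)

theorem prod_single (s : Fin k) (A : Matrix (Fin n) (Fin n) ℝ) (i j : Fin k → Fin n) :
    (∏ t, (Pi.mulSingle s A : Fin k → Matrix (Fin n) (Fin n) ℝ) t (i t) (j t))
      = A (i s) (j s) * if Function.update i s (j s) = j then 1 else 0 := by
  rw [← Finset.mul_prod_erase _ _ (Finset.mem_univ s), Pi.mulSingle_eq_same]
  congr 1
  split_ifs with h
  · refine Finset.prod_eq_one fun t ht => ?_
    have hts : t ≠ s := Finset.ne_of_mem_erase ht
    rw [Pi.mulSingle_eq_of_ne hts]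
    have := congrFun h t
    rw [Function.update_of_ne hts] at this
    rw [this, Matrix.one_apply_eq]
  · obtain ⟨t, ht⟩ := Function.ne_iff.mp h
    have hts : t ≠ s := by
      rintro rfl
      simp at ht
    rw [Function.update_of_ne hts] at ht
    refine Finset.prod_eq_zero (Finset.mem_erase.mpr ⟨hts, Finset.mem_univ t⟩) ?_
    rw [Pi.mulSingle_eq_of_ne hts, Matrix.one_apply_ne ht]

theorem D_apply (s : Fin k) (A : Matrix (Fin n) (Fin n) ℝ) (T : V k n m) (i : Fin k → Fin n)
    (l : Fin m) : D s A T (i, l) = ∑ a, A (i s) a * T (Function.update i s a, l) := by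
  rw [D, act_apply]
  simp only [prod_single]
  have h1 : ∑ j : Fin k → Fin n, (A (i s) (j s) * if Function.update i s (j s) = j then 1 else 0)
      * T (j, l) = ∑ j ∈ Finset.univ.filter (fun j => Function.update i s (j s) = j),
        A (i s) (j s) * T (j, l) := by
    rw [Finset.sum_filter]
    refine Finset.sum_congr rfl fun j _ => ?_
    split_ifs <;> simp
  rw [h1]
  refine Finset.sum_bij' (fun j _ => j s) (fun a _ => Function.update i s a) ?_ ?_ ?_ ?_ ?_
  · simp
  · intro a _
    simp
  · intro j hj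
    exact (Finset.mem_filter.mp hj).2
  · intro a _
    simp
  · intro j hj
    rw [(Finset.mem_filter.mp hj).2]

theorem D_add (s : Fin k) (A B : Matrix (Fin n) (Fin n) ℝ) :
    D s (A + B) = (D s A + D s B : V k n m →L[ℝ] V k n m) := by
  ext T ⟨i, l⟩
  rw [add_apply, PiLp.add_apply, D_apply, D_apply, D_apply]
  simp [add_mul, Finset.sum_add_distrib]

theorem D_smul (s : Fin k) (c : ℝ) (A : Matrix (Fin n) (Fin n) ℝ) :
    D s (c • A) = (c • D s A : V k n m →L[ℝ] V k n m) := by
  ext T ⟨i, l⟩
  rw [smul_apply, PiLp.smul_apply, D_apply, D_apply, smul_eq_mul, Finset.mul_sum]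
  refine Finset.sum_congr rfl fun a _ => ?_
  simp [mul_assoc]

theorem D_mul (s : Fin k) (A B : Matrix (Fin n) (Fin n) ℝ) :
    D s (A * B) = (D s A * D s B : V k n m →L[ℝ] V k n m) := by
  rw [D, D, D, Pi.mulSingle_mul, act_mul]

theorem D_one (s : Fin k) : D s (1 : Matrix (Fin n) (Fin n) ℝ) = (1 : V k n m →L[ℝ] V k n m) := by
  rw [D, Pi.mulSingle_one, act_one]

theorem D_comm (s t : Fin k) (h : s ≠ t) (A B : Matrix (Fin n) (Fin n) ℝ) :
    Commute (D s A : V k n m →L[ℝ] V k n m) (D t B) := by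
  have h1 := Pi.mulSingle_commute (f := fun _ : Fin k => Matrix (Fin n) (Fin n) ℝ) h A B
  exact h1.map (actHom k n m)

/-- An operator acting on the slot `s`, as a homomorphism of algebras. -/
noncomputable def DA (k n m : ℕ) (s : Fin k) : Op n →ₐ[ℝ] (V k n m →L[ℝ] V k n m) :=
  AlgHom.ofLinearMap
    { toFun := fun A => D s (toMat A)
      map_add' := fun A B => by
        rw [← D_add]
        congr 1
      map_smul' := fun c A => by
        rw [RingHom.id_apply, ← D_smul]
        congr 1 }
    (by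
      change D s (toMat 1) = 1
      rw [toMat_one, D_one])
    (by
      intro A B
      change D s (toMat (A * B)) = D s (toMat A) * D s (toMat B)
      rw [toMat_mul, D_mul])

theorem DA_apply (s : Fin k) (A : Op n) : DA k n m s A = D s (toMat A) := rfl

theorem DA_exp (s : Fin k) (A : Op n) :
    NormedSpace.exp (DA k n m s A) = DA k n m s (NormedSpace.exp A) := by
  letI : NormedAlgebra ℚ (Op n) := NormedAlgebra.restrictScalars ℚ ℝ (Op n)
  letI : NormedAlgebra ℚ (V k n m →L[ℝ] V k n m) :=
    NormedAlgebra.restrictScalars ℚ ℝ (V k n m →L[ℝ] V k n m)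
  exact (NormedSpace.map_exp (DA k n m s)
    (LinearMap.continuous_of_finiteDimensional (DA k n m s).toLinearMap) A).symm

/-- The derived representation. -/
noncomputable def Lie (k n m : ℕ) (A : Op n) : V k n m →L[ℝ] V k n m := ∑ s, DA k n m s A

/-- The exponential of the derived representation. -/
theorem exp_Lie (A : Op n) :
    NormedSpace.exp (Lie k n m A) = act fun _ => toMat (NormedSpace.exp A) := by
  letI : NormedAlgebra ℚ (V k n m →L[ℝ] V k n m) :=
    NormedAlgebra.restrictScalars ℚ ℝ (V k n m →L[ℝ] V k n m)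
  have hc : ((Finset.univ : Finset (Fin k)) : Set (Fin k)).Pairwise
      (Function.onFun Commute fun s => DA k n m s A) :=
    fun s _ t _ hst => D_comm s t hst _ _
  rw [Lie, NormedSpace.exp_sum_of_commute _ _ hc]
  have h1 := Finset.noncommProd_mulSingle (ι := Fin k)
    (M := fun _ => Matrix (Fin n) (Fin n) ℝ) (fun _ => toMat (NormedSpace.exp A))
  have h2 := congrArg (actHom k n m) h1
  rw [Finset.map_noncommProd] at h2
  change _ = act _ at h2
  rw [← h2]
  refine Finset.noncommProd_congr rfl (fun s _ => ?_) _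
  rw [DA_exp]
  rfl

end Pool.Agent.V11263.Ten
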