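import Mathlib
import Pool.Agent.V11263.Ten.A1
import Pool.Agent.TH591.Lie.Rep7

set_option autoImplicit false

/-!
# The Casimir operator on tensors, and the Pauli bound
-/

namespace Pool.Agent.V11263.Ten

open scoped InnerProductSpace Matrix
open Pool.Agent.TH591.Lie Function

variable {k n m : ℕ}

theorem inner_eq (T T' : V k n m) :
    ⟪T, T'⟫_ℝ = ∑ l, ∑ i, T (i, l) * T' (i, l) := by
  rw [PiLp.inner_apply, Fintype.sum_prod_type, Finset.sum_comm]
  refine Finset.sum_congr rfl fun l _ => Finset.sum_congr rfl fun i _ => ?_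
  rw [RCLike.inner_apply, conj_trivial, mul_comm]

theorem act_inner (C : Fin k → Matrix (Fin n) (Fin n) ℝ) (T T' : V k n m) :
    ⟪act C T, T'⟫_ℝ = ⟪T, act (fun s => (C s)ᵀ) T'⟫_ℝ := by
  rw [inner_eq, inner_eq]
  refine Finset.sum_congr rfl fun l _ => ?_
  simp only [act_apply, Finset.sum_mul, Finset.mul_sum, Matrix.transpose_apply]
  rw [Finset.sum_comm]
  refine Finset.sum_congr rfl fun i _ => Finset.sum_congr rfl fun j _ => ?_
  ring

theorem D_inner (s : Fin k) (A : Matrix (Fin n) (Fin n) ℝ) (T T' : V k n m) :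
    ⟪D s A T, T'⟫_ℝ = ⟪T, D s Aᵀ T'⟫_ℝ := by
  rw [D, act_inner, D]
  congr 2
  congr 1
  funext t
  rcases eq_or_ne t s with rfl | h
  · simp
  · simp [Pi.mulSingle_eq_of_ne h]

theorem D_D_apply (s t : Fin k) (h : s ≠ t) (A B : Matrix (Fin n) (Fin n) ℝ) (T : V k n m)
    (i : Fin k → Fin n) (l : Fin m) :
    D s A (D t B T) (i, l)
      = ∑ a, ∑ b, A (i s) a * B (i t) b * T (update (update i s a) t b, l) := by
  rw [D_apply]
  refine Finset.sum_congr rfl fun a _ => ?_
  rw [D_apply, Finset.mul_sum]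
  refine Finset.sum_congr rfl fun b _ => ?_
  rw [update_of_ne h.symm]
  ring

theorem D_sum {ι : Type*} (S : Finset ι) (s : Fin k) (A : ι → Matrix (Fin n) (Fin n) ℝ) :
    D s (∑ i ∈ S, A i) = (∑ i ∈ S, D s (A i) : V k n m →L[ℝ] V k n m) := by
  classical
  induction S using Finset.induction_on with
  | empty =>
    rw [Finset.sum_empty, Finset.sum_empty]
    ext T ⟨i, l⟩
    rw [D_apply]
    simp
  | insert a S ha ih => rw [Finset.sum_insert ha, Finset.sum_insert ha, D_add, ih]

theorem swap_update (i : Fin k → Fin n) (s t : Fin k) (h : s ≠ t) (a b : Fin n) :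
    update (update i s a) t b ∘ Equiv.swap s t = update (update i s b) t a := by
  funext u
  rw [comp_apply]
  rcases eq_or_ne u s with rfl | hus
  · rw [Equiv.swap_apply_left, update_self, update_of_ne h, update_self]
  · rcases eq_or_ne u t with rfl | hut
    · rw [Equiv.swap_apply_right, update_of_ne h, update_self, update_self]
    · rw [Equiv.swap_apply_of_ne_of_ne hus hut, update_of_ne hut, update_of_ne hus,
        update_of_ne hut, update_of_ne hus]

theorem update_swap (i : Fin k → Fin n) (s t : Fin k) (h : s ≠ t) :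
    update (update i s (i t)) t (i s) = i ∘ Equiv.swap s t := by
  have h1 := swap_update i s t h (i s) (i t)
  rw [update_eq_self s i, update_eq_self t i] at h1
  exact h1.symm

/-! ### The Casimir operator -/

/-- The matrix of the infinitesimal rotation. -/
noncomputable def x (p : Fin n × Fin n) : Matrix (Fin n) (Fin n) ℝ := toMat (XI n p)

theorem x_apply (p : Fin n × Fin n) (i j : Fin n) :
    x p i j = (if p.1 = i then 1 else 0) * (if p.2 = j then 1 else 0)
      - (if p.2 = i then 1 else 0) * (if p.1 = j then 1 else 0) := by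
  rw [x, toMat_apply, XI, xi_apply]
  simp only [WithLp.ofLp_sub, WithLp.ofLp_smul, Pi.sub_apply, Pi.smul_apply, bv_apply, smul_eq_mul]
  simp only [EuclideanSpace.single_apply, mul_comm]

theorem sum_x_x (i j i' j' : Fin n) :
    ∑ p : Fin n × Fin n, x p i j * x p i' j'
      = 2 * ((if i = i' then 1 else 0) * (if j = j' then 1 else 0)
        - (if i = j' then 1 else 0) * (if j = i' then 1 else 0)) := by
  simp only [x_apply]
  rw [Fintype.sum_prod_type]
  have h1 : ∀ a b : Fin n,
      (((if a = i then 1 else 0) * (if b = j then 1 else 0)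
        - (if b = i then 1 else 0) * (if a = j then 1 else 0) : ℝ)
      * ((if a = i' then 1 else 0) * (if b = j' then 1 else 0)
        - (if b = i' then 1 else 0) * (if a = j' then 1 else 0)))
      = ((if a = i then 1 else 0) * (if a = i' then 1 else 0))
          * ((if b = j then 1 else 0) * (if b = j' then 1 else 0))
        - ((if a = i then 1 else 0) * (if a = j' then 1 else 0))
          * ((if b = j then 1 else 0) * (if b = i' then 1 else 0))
        - ((if a = j then 1 else 0) * (if a = i' then 1 else 0))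
          * ((if b = i then 1 else 0) * (if b = j' then 1 else 0))
        + ((if a = j then 1 else 0) * (if a = j' then 1 else 0))
          * ((if b = i then 1 else 0) * (if b = i' then 1 else 0)) := by
    intro a b
    ring
  have h2 : ∀ u v : Fin n, ∑ a : Fin n, ((if a = u then 1 else 0) * (if a = v then 1 else 0) : ℝ)
      = if u = v then 1 else 0 := by
    intro u v
    simp only [ite_mul, one_mul, zero_mul]
    rw [Finset.sum_ite_eq' Finset.univ u]
    simp
  simp only [h1, Finset.sum_add_distrib, Finset.sum_sub_distrib, ← Finset.mul_sum,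
    ← Finset.sum_mul, h2]
  ring

theorem sum_x_sq : ∑ p : Fin n × Fin n, x p * x p = (-(2 * ((n : ℝ) - 1))) • (1 : Matrix _ _ ℝ) := by
  ext i j
  rw [Matrix.sum_apply, Matrix.smul_apply, Matrix.one_apply, smul_eq_mul]
  simp only [Matrix.mul_apply]
  rw [Finset.sum_comm]
  simp only [sum_x_x]
  rw [← Finset.mul_sum, Finset.sum_sub_distrib]
  have h1 : ∑ a : Fin n, ((if i = a then 1 else 0) * (if a = j then 1 else 0) : ℝ)
      = if i = j then 1 else 0 := by
    simp
  have h2 : ∑ _a : Fin n, ((if i = j then 1 else 0) : ℝ)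
      = n * if i = j then 1 else 0 := by
    simp
  simp only [if_true, mul_one]
  rw [h1, h2]
  ring

/-- The generators on the tensors. -/
noncomputable def X (k n m : ℕ) (p : Fin n × Fin n) : V k n m →L[ℝ] V k n m := Lie k n m (XI n p)

theorem X_apply (p : Fin n × Fin n) (T : V k n m) : X k n m p T = ∑ s, D s (x p) T := by
  rw [X, Lie, FunLike.coe_sum, Finset.sum_apply]
  rfl

/-- The Casimir operator, in general. -/
theorem casimir_apply (T : V k n m) (i : Fin k → Fin n) (l : Fin m) :
    (∑ p, X k n m p (X k n m p T)) (i, l) = -(2 * ((n : ℝ) - 1)) * k * T (i, l)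
      + ∑ s, ∑ t, if s = t then 0 else
        (2 * (if i s = i t then 1 else 0) * ∑ a, T (update (update i s a) t a, l)
          - 2 * T (i ∘ Equiv.swap s t, l)) := by
  have h1 : ∑ p, X k n m p (X k n m p T) = ∑ s, ∑ t, ∑ p, D s (x p) (D t (x p) T) := by
    simp only [X_apply, map_sum]
    rw [Finset.sum_comm]
    conv_rhs => rw [Finset.sum_comm]
    refine Finset.sum_congr rfl fun s _ => ?_
    rw [Finset.sum_comm]
  have h2 : ∀ s t : Fin k, (∑ p, D s (x p) (D t (x p) T)) (i, l)
      = (if s = t then -(2 * ((n : ℝ) - 1)) * T (i, l) else 0) + if s = t then 0 else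
        (2 * (if i s = i t then 1 else 0) * ∑ a, T (update (update i s a) t a, l)
          - 2 * T (i ∘ Equiv.swap s t, l)) := by
    intro s t
    rcases eq_or_ne s t with rfl | hst
    · rw [if_pos rfl, if_pos rfl, add_zero]
      have h3 : ∑ p, D s (x p) (D s (x p) T) = D s (∑ p, x p * x p) T := by
        rw [D_sum, FunLike.coe_sum, Finset.sum_apply]
        refine Finset.sum_congr rfl fun p _ => ?_
        rw [D_mul, mul_apply_eq_comp]
      rw [h3, sum_x_sq, D_smul, D_one, smul_apply, one_apply_eq_self, PiLp.smul_apply,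
        smul_eq_mul]
    · rw [if_neg hst, if_neg hst, zero_add, WithLp.ofLp_sum, Finset.sum_apply]
      simp only [D_D_apply s t hst]
      rw [Finset.sum_comm]
      have h4 : ∀ a : Fin n, ∑ p : Fin n × Fin n, ∑ b, x p (i s) a * x p (i t) b
          * T (update (update i s a) t b, l)
          = 2 * (if i s = i t then 1 else 0) * T (update (update i s a) t a, l)
            - (if a = i t then 2 * T (update (update i s a) t (i s), l) else 0) := by
        intro a
        rw [Finset.sum_comm]
        simp only [← Finset.sum_mul, sum_x_x]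
        have h5 : ∀ b : Fin n, (2 * ((if i s = i t then 1 else 0) * (if a = b then 1 else 0)
            - (if i s = b then 1 else 0) * (if a = i t then 1 else 0)) : ℝ)
            * T (update (update i s a) t b, l)
            = (if a = b then 2 * (if i s = i t then 1 else 0)
                * T (update (update i s a) t b, l) else 0)
              - (if i s = b then (if a = i t then 2 * T (update (update i s a) t b, l) else 0)
                else 0) := by
          intro b
          split_ifs <;> ring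
        simp only [h5, Finset.sum_sub_distrib]
        rw [Finset.sum_ite_eq Finset.univ a, Finset.sum_ite_eq Finset.univ (i s)]
        simp
      simp only [h4, Finset.sum_sub_distrib, ← Finset.mul_sum]
      rw [Finset.sum_ite_eq' Finset.univ (i t)]
      simp only [Finset.mem_univ, if_true, update_swap i s t hst]
  rw [h1]
  simp only [WithLp.ofLp_sum, Finset.sum_apply] at h2 ⊢
  simp only [h2, Finset.sum_add_distrib]
  congr 1
  simp
  ring

/-- The Casimir operator on the trace-free tensors of a symmetry type. -/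
theorem casimir_typ (T : V k n m) (χ : ℝ)
    (htr : ∀ s t : Fin k, s ≠ t → ∀ i l, ∑ a, T (update (update i s a) t a, l) = 0)
    (hχ : ∀ i l, ∑ s : Fin k, ∑ t : Fin k, (if s = t then 0 else T (i ∘ Equiv.swap s t, l))
      = 2 * χ * T (i, l)) :
    -∑ p, X k n m p (X k n m p T) = (2 * (k * ((n : ℝ) - 1) + 2 * χ)) • T := by
  ext ⟨i, l⟩
  rw [PiLp.neg_apply, casimir_apply, PiLp.smul_apply, smul_eq_mul]
  have h1 : ∑ s : Fin k, ∑ t : Fin k, (if s = t then 0 else
        (2 * (if i s = i t then 1 else 0) * ∑ a, T (update (update i s a) t a, l)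
          - 2 * T (i ∘ Equiv.swap s t, l)))
      = -2 * ∑ s : Fin k, ∑ t : Fin k, (if s = t then 0 else T (i ∘ Equiv.swap s t, l)) := by
    rw [Finset.mul_sum]
    refine Finset.sum_congr rfl fun s _ => ?_
    rw [Finset.mul_sum]
    refine Finset.sum_congr rfl fun t _ => ?_
    split_ifs with h
    · simp
    · rw [htr s t h]
      ring
    · rw [htr s t h]
      ring
  rw [h1, hχ]
  ring

/-! ### The Pauli bound -/

/-- `T` is alternating in the slots of `S`. -/
def Alt (S : Finset (Fin k)) (T : V k n m) : Prop :=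
  ∀ s ∈ S, ∀ t ∈ S, s ≠ t → ∀ i l, T (i ∘ Equiv.swap s t, l) = -T (i, l)

theorem alt_proj (S : Finset (Fin k)) (T : V k n m) (hT : Alt S T) (v : Fin n → ℝ) (s t : Fin k)
    (hs : s ∈ S) (ht : t ∈ S) (h : s ≠ t) :
    D s (Matrix.vecMulVec v v) (D t (Matrix.vecMulVec v v) T) = 0 := by
  ext ⟨i, l⟩
  rw [D_D_apply s t h]
  simp only [Matrix.vecMulVec_apply]
  have h1 : ∑ a, ∑ b, v (i s) * v a * (v (i t) * v b) * T (update (update i s a) t b, l)
      = -∑ a, ∑ b, v (i s) * v a * (v (i t) * v b) * T (update (update i s a) t b, l) := by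
    conv_lhs => rw [Finset.sum_comm]
    rw [← Finset.sum_neg_distrib]
    refine Finset.sum_congr rfl fun a _ => ?_
    rw [← Finset.sum_neg_distrib]
    refine Finset.sum_congr rfl fun b _ => ?_
    rw [← swap_update i s t h a b, hT s hs t ht h]
    ring
  have h2 : ∑ a, ∑ b, v (i s) * v a * (v (i t) * v b) * T (update (update i s a) t b, l) = 0 := by
    linarith
  rw [h2]
  rfl

theorem pauli_vec (S : Finset (Fin k)) (T : V k n m) (hT : Alt S T) (v : Fin n → ℝ) :
    ∑ s ∈ S, ⟪T, D s (Matrix.vecMulVec v v) T⟫_ℝ ≤ (∑ a, v a ^ 2) * ‖T‖ ^ 2 := by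
  set P := Matrix.vecMulVec v v with hP
  set c := ∑ a, v a ^ 2 with hc
  have hc0 : 0 ≤ c := Finset.sum_nonneg fun a _ => sq_nonneg _
  have hPP : P * P = c • P := by
    ext i j
    rw [Matrix.mul_apply, Matrix.smul_apply, hP, hc, Matrix.vecMulVec_apply, smul_eq_mul,
      Finset.sum_mul]
    refine Finset.sum_congr rfl fun a _ => ?_
    rw [Matrix.vecMulVec_apply, Matrix.vecMulVec_apply]
    ring
  have hPt : Pᵀ = P := by
    ext i j
    rw [Matrix.transpose_apply, hP, Matrix.vecMulVec_apply, Matrix.vecMulVec_apply, mul_comm]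
  set B : V k n m := ∑ s ∈ S, D s P T with hB
  have h1 : ∑ s ∈ S, D s P B = c • B := by
    rw [hB, Finset.smul_sum]
    refine Finset.sum_congr rfl fun s hs => ?_
    rw [map_sum, Finset.sum_eq_single_of_mem s hs]
    · rw [← mul_apply_eq_comp, ← D_mul, hPP, D_smul]
      rfl
    · intro t ht hts
      exact alt_proj S T hT v s t hs ht (Ne.symm hts)
  have h2 : ‖B‖ ^ 2 = c * ⟪T, B⟫_ℝ := by
    rw [← real_inner_self_eq_norm_sq]
    conv_lhs => rw [hB]
    rw [sum_inner, ← real_inner_smul_right, ← h1, inner_sum]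
    refine Finset.sum_congr rfl fun s _ => ?_
    rw [D_inner, hPt]
  have h3 : ∑ s ∈ S, ⟪T, D s P T⟫_ℝ = ⟪T, B⟫_ℝ := by
    rw [hB, inner_sum]
  rw [h3]
  have h4 : ⟪T, B⟫_ℝ ≤ ‖T‖ * ‖B‖ := real_inner_le_norm T B
  have h5 : 0 ≤ c * ⟪T, B⟫_ℝ := by
    rw [← h2]
    positivity
  rcases eq_or_lt_of_le hc0 with h0 | h0
  · rw [← h0] at h2 ⊢
    have : ‖B‖ = 0 := by
      have : ‖B‖ ^ 2 = 0 := by rw [h2, zero_mul]
      exact pow_eq_zero_iff (two_ne_zero) |>.mp this
    rw [this] at h4
    linarith
  · have h6 : 0 ≤ ⟪T, B⟫_ℝ := nonneg_of_mul_nonneg_right h5 h0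
    have h7 : ⟪T, B⟫_ℝ ^ 2 ≤ ‖T‖ ^ 2 * (c * ⟪T, B⟫_ℝ) := by
      rw [← h2, ← mul_pow]
      exact pow_le_pow_left₀ h6 h4 2
    rcases eq_or_lt_of_le h6 with h8 | h8
    · rw [← h8]
      positivity
    · have h9 : ⟪T, B⟫_ℝ * ⟪T, B⟫_ℝ ≤ (c * ‖T‖ ^ 2) * ⟪T, B⟫_ℝ := by nlinarith
      exact le_of_mul_le_mul_right h9 h8

/-- The Pauli bound. -/
theorem pauli (S : Finset (Fin k)) (T : V k n m) (hT : Alt S T) (A : Matrix (Fin n) (Fin n) ℝ) :
    ∑ s ∈ S, ‖D s A T‖ ^ 2 ≤ (∑ a, ∑ b, A a b ^ 2) * ‖T‖ ^ 2 := by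
  have h1 : ∀ s : Fin k, ‖D s A T‖ ^ 2 = ∑ a, ⟪T, D s (Matrix.vecMulVec (A a) (A a)) T⟫_ℝ := by
    intro s
    have h2 : Aᵀ * A = ∑ a, Matrix.vecMulVec (A a) (A a) := by
      ext i j
      rw [Matrix.mul_apply, Matrix.sum_apply]
      rfl
    rw [← real_inner_self_eq_norm_sq, D_inner, ← mul_apply_eq_comp, ← D_mul, h2, D_sum,
      FunLike.coe_sum, Finset.sum_apply, inner_sum]
  simp only [h1]
  rw [Finset.sum_comm, Finset.sum_mul]
  exact Finset.sum_le_sum fun a _ => pauli_vec S T hT (A a)

end Pool.Agent.V11263.Ten
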