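import Mathlib
import Pool.Agent.V11263.Ten.A2
import Pool.Agent.Y368.Lie.Matrix

set_option autoImplicit false

/-!
# Convex bodies in rotation invariant spaces of tensors of a symmetry type
-/

namespace Pool.Agent.V11263.Ten

open scoped InnerProductSpace Matrix Topology
open Pool.Agent.TH591.Lie Function Filter

variable {k n m : ℕ}

/-! ### The norm of the generators -/

theorem lie_norm {r : ℕ} (c : Fin k → Fin r) (T : V k n m)
    (hT : ∀ g : Fin r, Alt (Finset.univ.filter fun s => c s = g) T)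
    (A : Matrix (Fin n) (Fin n) ℝ) :
    ‖∑ s, D s A T‖ ^ 2 ≤ r * k * (∑ a, ∑ b, A a b ^ 2) * ‖T‖ ^ 2 := by
  have h1 : ‖∑ s, D s A T‖ ≤ ∑ s, ‖D s A T‖ := norm_sum_le _ _
  have h2 : (∑ s : Fin k, ‖D s A T‖) ^ 2 ≤ k * ∑ s, ‖D s A T‖ ^ 2 := by
    have := sq_sum_le_card_mul_sum_sq (s := (Finset.univ : Finset (Fin k)))
      (f := fun s => ‖D s A T‖)
    simpa using this
  have h3 : ∑ s, ‖D s A T‖ ^ 2 = ∑ g : Fin r, ∑ s ∈ Finset.univ.filter (fun s => c s = g),
      ‖D s A T‖ ^ 2 := (Finset.sum_fiberwise _ _ _).symm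
  have h4 : ∑ g : Fin r, ∑ s ∈ Finset.univ.filter (fun s => c s = g), ‖D s A T‖ ^ 2
      ≤ ∑ _g : Fin r, (∑ a, ∑ b, A a b ^ 2) * ‖T‖ ^ 2 :=
    Finset.sum_le_sum fun g _ => pauli _ T (hT g) A
  rw [Finset.sum_const, Finset.card_univ, Fintype.card_fin, nsmul_eq_mul] at h4
  calc ‖∑ s, D s A T‖ ^ 2 ≤ (∑ s, ‖D s A T‖) ^ 2 := pow_le_pow_left₀ (norm_nonneg _) h1 2
    _ ≤ k * ∑ s, ‖D s A T‖ ^ 2 := h2
    _ ≤ k * (r * ((∑ a, ∑ b, A a b ^ 2) * ‖T‖ ^ 2)) := by
        rw [h3]
        exact mul_le_mul_of_nonneg_left h4 (Nat.cast_nonneg k)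
    _ = _ := by ring

theorem toMat_comb (a : Fin n × Fin n → ℝ) (i j : Fin n) :
    toMat (∑ p, a p • XI n p) i j = a (i, j) - a (j, i) := by
  have h1 : toMat (∑ p, a p • XI n p) i j = ∑ p, a p * x p i j := by
    rw [toMat_apply, FunLike.coe_sum, Finset.sum_apply, WithLp.ofLp_sum, Finset.sum_apply]
    refine Finset.sum_congr rfl fun p _ => ?_
    rw [smul_apply, PiLp.smul_apply, smul_eq_mul]
    rfl
  rw [h1, Fintype.sum_prod_type]
  simp only [x_apply]
  have h2 : ∀ u v : Fin n, a (u, v) * ((if u = i then 1 else 0) * (if v = j then 1 else 0)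
      - (if v = i then 1 else 0) * (if u = j then 1 else 0))
      = (if v = j then (if u = i then a (u, v) else 0) else 0)
        - (if v = i then (if u = j then a (u, v) else 0) else 0) := by
    intro u v
    split_ifs <;> ring
  simp only [h2, Finset.sum_sub_distrib, Finset.sum_ite_eq', Finset.mem_univ, if_true]

theorem frob (a : Fin n × Fin n → ℝ) :
    ∑ i, ∑ j, toMat (∑ p, a p • XI n p) i j ^ 2 ≤ 4 * ∑ p, a p ^ 2 := by
  simp only [toMat_comb]
  have h1 : ∑ i, ∑ j, (a (i, j) - a (j, i)) ^ 2 ≤ ∑ i, ∑ j, (2 * a (i, j) ^ 2 + 2 * a (j, i) ^ 2) :=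
    Finset.sum_le_sum fun i _ => Finset.sum_le_sum fun j _ => by
      nlinarith [sq_nonneg (a (i, j) + a (j, i))]
  refine h1.trans (le_of_eq ?_)
  simp only [Finset.sum_add_distrib, ← Finset.mul_sum]
  rw [Finset.sum_comm (f := fun i j => a (j, i) ^ 2), Fintype.sum_prod_type]
  ring

theorem comb_X (a : Fin n × Fin n → ℝ) :
    ∑ p, a p • X k n m p = Lie k n m (∑ p, a p • XI n p) := by
  simp only [X, Lie, map_sum, map_smul, Finset.smul_sum]
  rw [Finset.sum_comm]

theorem Lie_apply (A : Op n) (T : V k n m) : Lie k n m A T = ∑ s, D s (toMat A) T := by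
  rw [Lie, FunLike.coe_sum, Finset.sum_apply]
  rfl

theorem X_norm {r : ℕ} (c : Fin k → Fin r) (T : V k n m)
    (hT : ∀ g : Fin r, Alt (Finset.univ.filter fun s => c s = g) T)
    (a : Fin n × Fin n → ℝ) (ha : ∑ p, a p ^ 2 ≤ 1) :
    ‖(∑ p, a p • X k n m p) T‖ ≤ 2 * √(r * k) * ‖T‖ := by
  have h1 := lie_norm c T hT (toMat (∑ p, a p • XI n p))
  have h2 := frob a
  rw [comb_X, Lie_apply]
  refine abs_le_of_sq_le_sq' ?_ (by positivity) |>.2
  refine h1.trans ?_
  rw [mul_pow, mul_pow, Real.sq_sqrt (by positivity)]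
  have h3 : ∑ i, ∑ j, toMat (∑ p, a p • XI n p) i j ^ 2 ≤ 4 := by linarith
  have h4 : (r : ℝ) * k * (∑ i, ∑ j, toMat (∑ p, a p • XI n p) i j ^ 2) ≤ r * k * 4 :=
    mul_le_mul_of_nonneg_left h3 (by positivity)
  have h5 := mul_le_mul_of_nonneg_right h4 (sq_nonneg ‖T‖)
  linarith

/-! ### Skewness -/

theorem toMat_skew (A : Op n) (hA : Skew A) : (toMat A)ᵀ = -toMat A := by
  ext a b
  rw [Matrix.transpose_apply, Matrix.neg_apply, toMat_apply, toMat_apply]
  have := hA (EuclideanSpace.single a 1) (EuclideanSpace.single b 1)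
  rw [EuclideanSpace.inner_single_right, EuclideanSpace.inner_single_left] at this
  simpa using this

theorem Lie_skew (A : Op n) (hA : Skew A) : Skew (Lie k n m A) := by
  intro T T'
  rw [Lie_apply, Lie_apply, sum_inner, inner_sum, ← Finset.sum_neg_distrib]
  refine Finset.sum_congr rfl fun s _ => ?_
  rw [D_inner, toMat_skew A hA]
  have h1 : D s (-toMat A) = (-D s (toMat A) : V k n m →L[ℝ] V k n m) := by
    ext T ⟨i, l⟩
    rw [neg_apply, PiLp.neg_apply, D_apply, D_apply, ← Finset.sum_neg_distrib]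
    refine Finset.sum_congr rfl fun b _ => ?_
    rw [Matrix.neg_apply]
    ring
  rw [h1, neg_apply, inner_neg_right]

/-! ### Invariant subspaces -/

/-- The rotation `U` acting on tensors. -/
noncomputable def rotT (U : Matrix (Fin n) (Fin n) ℝ) : V k n m →L[ℝ] V k n m := act fun _ => U

theorem rotT_apply (U : Matrix (Fin n) (Fin n) ℝ) (T : V k n m) (i : Fin k → Fin n) (l : Fin m) :
    rotT U T (i, l) = ∑ j : Fin k → Fin n, (∏ s, U (i s) (j s)) * T (j, l) := rfl

theorem exp_Lie_apply (A : Op n) (T : V k n m) :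
    NormedSpace.exp (Lie k n m A) T = rotT (toMat (NormedSpace.exp A)) T := by
  rw [exp_Lie]
  rfl

theorem lie_mem (W : Submodule ℝ (V k n m))
    (hW : ∀ U ∈ Matrix.specialOrthogonalGroup (Fin n) ℝ, ∀ T ∈ W, rotT U T ∈ W)
    (A : Op n) (hA : Skew A) (T : V k n m) (hT : T ∈ W) : Lie k n m A T ∈ W := by
  have h1 := hasDerivAt_flow (Lie k n m A) T 0
  rw [flow_zero] at h1
  have h2 := h1.tendsto_slope_zero
  have hcl : IsClosed (W : Set (V k n m)) := W.closed_of_finiteDimensional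
  refine hcl.mem_of_tendsto h2 (Eventually.of_forall fun t => ?_)
  rw [zero_add, flow_zero]
  refine W.smul_mem _ (W.sub_mem ?_ hT)
  have h3 : t • Lie k n m A = Lie k n m (t • A) := by
    simp only [Lie, map_smul, Finset.smul_sum]
  rw [h3, exp_Lie_apply]
  exact hW _ (toMat_exp_mem _ (hA.smul t)) T hT

/-- Exponentials and intertwining maps. -/
theorem exp_intertwine {E F : Type*} [NormedAddCommGroup E] [InnerProductSpace ℝ E]
    [FiniteDimensional ℝ E] [NormedAddCommGroup F] [InnerProductSpace ℝ F]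
    [FiniteDimensional ℝ F] (L : E →L[ℝ] F) (S : E →L[ℝ] E) (S' : F →L[ℝ] F)
    (h : ∀ x, L (S x) = S' (L x)) (x : E) :
    L (NormedSpace.exp S x) = NormedSpace.exp S' (L x) := by
  let f : ℝ → F := fun t => NormedSpace.exp ((-t) • S') (L (NormedSpace.exp (t • S) x))
  have hf : ∀ t, HasDerivAt f 0 t := by
    intro t
    have h1 := hasDerivAt_flow S x t
    have h2 := L.hasFDerivAt.comp_hasDerivAt t h1
    have h3 : HasDerivAt (fun t : ℝ => NormedSpace.exp ((-t) • S'))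
        (-(NormedSpace.exp ((-t) • S') * S')) t := by
      have h4 := (hasDerivAt_exp_smul_const (𝕂 := ℝ) S' (-t)).scomp t (hasDerivAt_neg t)
      simpa [Function.comp_def] using h4
    have h5 := h3.clm_apply h2
    have e : (-(NormedSpace.exp ((-t) • S') * S')) (L (NormedSpace.exp (t • S) x))
        + NormedSpace.exp ((-t) • S') (L (S (NormedSpace.exp (t • S) x))) = 0 := by
      rw [h, neg_apply, mul_apply_eq_comp, neg_add_cancel]
    rw [← e]
    exact h5
  have hc := is_const_of_deriv_eq_zero (fun t => (hf t).differentiableAt)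
    (fun t => (hf t).deriv) 1 0
  have h6 : NormedSpace.exp ((-1 : ℝ) • S') (L (NormedSpace.exp ((1 : ℝ) • S) x)) = L x := by
    have h7 : f 0 = L x := by
      simp only [f, neg_zero, flow_zero]
    rw [← h7, ← hc]
  rw [one_smul] at h6
  rw [← h6]
  have h8 := flow_neg' S' 1 (L (NormedSpace.exp S x))
  rw [one_smul] at h8
  exact h8.symm

/-! ### Spaces of tensors, up to isometry -/

section

variable {E : Type*} [NormedAddCommGroup E] [InnerProductSpace ℝ E] [FiniteDimensional ℝ E]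

/-- The generators on an isometric copy of an invariant space of tensors. -/
theorem exists_XE (J : E →ₗᵢ[ℝ] V k n m)
    (hW : ∀ U ∈ Matrix.specialOrthogonalGroup (Fin n) ℝ, ∀ x : E, ∃ y : E, J y = rotT U (J x)) :
    ∃ XE : Fin n × Fin n → E →L[ℝ] E, ∀ p x, J (XE p x) = X k n m p (J x) := by
  let W := LinearMap.range J.toLinearMap
  have hW' : ∀ U ∈ Matrix.specialOrthogonalGroup (Fin n) ℝ, ∀ T ∈ W, rotT U T ∈ W := by
    rintro U hU T ⟨x, rfl⟩
    obtain ⟨y, hy⟩ := hW U hU x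
    exact ⟨y, hy⟩
  have hmem : ∀ p x, X k n m p (J x) ∈ W := fun p x =>
    lie_mem W hW' (XI n p) (XI_skew p) (J x) ⟨x, rfl⟩
  let e := J.equivRange
  let G : Fin n × Fin n → E →L[ℝ] W := fun p =>
    ((X k n m p).comp J.toContinuousLinearMap).codRestrict W (hmem p)
  refine ⟨fun p => (e.symm.toContinuousLinearEquiv : W →L[ℝ] E).comp (G p), fun p x => ?_⟩
  have h1 : ((e (e.symm (G p x)) : W) : V k n m) = X k n m p (J x) := by
    rw [LinearIsometryEquiv.apply_symm_apply]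
    rfl
  exact h1

variable (J : E →ₗᵢ[ℝ] V k n m) (XE : Fin n × Fin n → E →L[ℝ] E)
  (hXE : ∀ p x, J (XE p x) = X k n m p (J x))

include hXE

theorem XE_comb (a : Fin n × Fin n → ℝ) (x : E) :
    J ((∑ p, a p • XE p) x) = (∑ p, a p • X k n m p) (J x) := by
  simp only [FunLike.coe_sum, Finset.sum_apply, smul_apply, map_sum, map_smul, hXE]

theorem XE_inv (K : Set E)
    (hinv : ∀ U ∈ Matrix.specialOrthogonalGroup (Fin n) ℝ, ∀ x ∈ K, ∀ y : E,
      J y = rotT U (J x) → y ∈ K) : Inv XE K := by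
  intro a x hx
  refine hinv _ (toMat_exp_mem _ (XI_comb_skew a)) x hx _ ?_
  have h1 := exp_intertwine J.toContinuousLinearMap (∑ p, a p • XE p) (∑ p, a p • X k n m p)
    (fun x => XE_comb J XE hXE a x) x
  rw [comb_X] at h1
  exact h1.trans (exp_Lie_apply _ _)

end

/-- **Convex bodies in spaces of tensors of a symmetry type.** -/
theorem cover_typ {E : Type*} [NormedAddCommGroup E] [InnerProductSpace ℝ E]
    [FiniteDimensional ℝ E] (J : E →ₗᵢ[ℝ] V k n m)
    (hW : ∀ U ∈ Matrix.specialOrthogonalGroup (Fin n) ℝ, ∀ x : E, ∃ y : E, J y = rotT U (J x))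
    {r : ℕ} (c : Fin k → Fin r) (χ : ℝ)
    (halt : ∀ x : E, ∀ g : Fin r, Alt (Finset.univ.filter fun s => c s = g) (J x))
    (htr : ∀ x : E, ∀ s t : Fin k, s ≠ t → ∀ i l,
      ∑ a, J x (update (update i s a) t a, l) = 0)
    (hχ : ∀ x : E, ∀ i l, ∑ s : Fin k, ∑ t : Fin k,
      (if s = t then 0 else J x (i ∘ Equiv.swap s t, l)) = 2 * χ * J x (i, l))
    (hk : 1 ≤ k) (hq : 0 < (n : ℝ) - 1 + 2 * χ / k) (K : Set E)
    (hd : 2 ≤ Module.finrank ℝ E) (hK : Convex ℝ K) (hKc : IsCompact K)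
    (hKi : (interior K).Nonempty) (a : ℝ) (ha : 0 < a) (hKa : ∀ x ∈ K, -(a⁻¹ • x) ∈ K)
    (hinv : ∀ U ∈ Matrix.specialOrthogonalGroup (Fin n) ℝ, ∀ x ∈ K, ∀ y : E,
      J y = rotT U (J x) → y ∈ K) :
    ∃ S : Finset E, K ⊆ ⋃ t ∈ S, (fun x => t + x) '' interior K ∧
      (S.card : ℝ) ≤ 1 + 13 * Module.finrank ℝ E * Real.log (2 * Module.finrank ℝ E ^ 2
        + 2 * Module.finrank ℝ E + 1) * 2 ^ Module.finrank ℝ E
        * Real.exp (-(((n : ℝ) - 1 + 2 * χ / k) / (960 * r * (1 + a) ^ 2))) := by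
  have hk' : (1 : ℝ) ≤ k := by exact_mod_cast hk
  have hk0 : (0 : ℝ) < k := by linarith
  have hr : 1 ≤ r := by
    have : 0 < r := (c ⟨0, hk⟩).pos
    omega
  have hr' : (1 : ℝ) ≤ r := by exact_mod_cast hr
  have hr0 : (0 : ℝ) < r := by linarith
  let _ : MeasurableSpace E := borel E
  have _ : BorelSpace E := ⟨rfl⟩
  have hq' : 0 < 2 * (k * ((n : ℝ) - 1) + 2 * χ) := by
    have h1 := mul_pos hk0 hq
    rw [mul_add, mul_div_cancel₀ _ hk0.ne'] at h1
    linarith
  obtain ⟨XE, hXE⟩ := exists_XE J hW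
  have h := Y368.Lie.cover_scalar' XE ?_ (2 * (k * ((n : ℝ) - 1) + 2 * χ)) hq' ?_
    (2 * √(r * k)) (by positivity) ?_ K hd hK hKc hKi a ha hKa (XE_inv J XE hXE K hinv)
  · have e : 2 * (k * ((n : ℝ) - 1) + 2 * χ) / (480 * (2 * √(r * k)) ^ 2 * (1 + a) ^ 2)
        = ((n : ℝ) - 1 + 2 * χ / k) / (960 * r * (1 + a) ^ 2) := by
      rw [mul_pow, Real.sq_sqrt (by positivity)]
      field_simp
      ring
    rwa [e] at h
  · intro p x y
    rw [← J.inner_map_map, hXE, ← J.inner_map_map x, hXE]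
    exact Lie_skew (XI n p) (XI_skew p) (J x) (J y)
  · intro x
    apply J.injective
    rw [map_neg, map_sum, map_smul, ← casimir_typ (J x) χ (htr x) (hχ x)]
    simp only [hXE]
  · intro b hb x
    have h1 := X_norm c (J x) (halt x) b hb
    have h2 := XE_comb J XE hXE b x
    have h3 : ∑ p, b p • XE p x = (∑ p, b p • XE p) x := by
      simp only [FunLike.coe_sum, Finset.sum_apply, smul_apply]
    rw [h3, ← J.norm_map, ← J.norm_map x, h2]
    exact h1

end Pool.Agent.V11263.Ten
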