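import Mathlib
import Pool.Agent.V11263.Ten.A3

set_option autoImplicit false

/-!
# Spaces of forms
-/

namespace Pool.Agent.V11263.Ten

open scoped InnerProductSpace Matrix Topology
open Pool.Agent.TH591.Lie Function Filter

variable {k n m : ℕ}

/-- `m`-tuples of alternating tensors of order `k`. -/
def Forms (k n m : ℕ) : Submodule ℝ (V k n m) where
  carrier := {T | ∀ s t : Fin k, s ≠ t → ∀ i l, T (i ∘ Equiv.swap s t, l) = -T (i, l)}
  add_mem' := by
    intro T T' hT hT' s t h i l
    rw [PiLp.add_apply, PiLp.add_apply, hT s t h, hT' s t h]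
    ring
  zero_mem' := by
    intro s t _ i l
    simp
  smul_mem' := by
    intro c T hT s t h i l
    rw [PiLp.smul_apply, PiLp.smul_apply, hT s t h]
    simp

theorem mem_Forms (T : V k n m) : T ∈ Forms k n m ↔
    ∀ s t : Fin k, s ≠ t → ∀ i l, T (i ∘ Equiv.swap s t, l) = -T (i, l) := Iff.rfl

theorem Forms_rot (U : Matrix (Fin n) (Fin n) ℝ) (T : V k n m) (hT : T ∈ Forms k n m) :
    rotT U T ∈ Forms k n m := by
  intro s t h i l
  rw [rotT_apply, rotT_apply, ← Finset.sum_neg_distrib]
  refine Fintype.sum_equiv (Equiv.arrowCongr (Equiv.swap s t) (Equiv.refl _)) _ _ fun j => ?_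
  have h1 : (Equiv.arrowCongr (Equiv.swap s t) (Equiv.refl (Fin n))) j = j ∘ Equiv.swap s t := by
    funext u
    simp [Equiv.arrowCongr]
  rw [h1, hT s t h]
  have h2 : ∏ u, U ((i ∘ Equiv.swap s t) u) (j u)
      = ∏ u, U (i u) ((j ∘ Equiv.swap s t) u) := by
    refine Fintype.prod_equiv (Equiv.swap s t) _ _ fun u => ?_
    simp
  rw [h2]
  ring

theorem Forms_zero (T : V k n m) (hT : T ∈ Forms k n m) (j : Fin k → Fin n) (l : Fin m)
    (hj : ¬ Injective j) : T (j, l) = 0 := by
  rw [Injective] at hj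
  push Not at hj
  obtain ⟨s, t, h1, h2⟩ := hj
  have h3 := hT s t h2 j l
  have h4 : j ∘ Equiv.swap s t = j := by
    funext u
    rw [comp_apply]
    rcases eq_or_ne u s with rfl | hus
    · rw [Equiv.swap_apply_left, h1]
    · rcases eq_or_ne u t with rfl | hut
      · rw [Equiv.swap_apply_right, h1]
      · rw [Equiv.swap_apply_of_ne_of_ne hus hut]
  rw [h4] at h3
  linarith

theorem Forms_trace (T : V k n m) (hT : T ∈ Forms k n m) (s t : Fin k) (h : s ≠ t)
    (i : Fin k → Fin n) (l : Fin m) : ∑ a, T (update (update i s a) t a, l) = 0 := by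
  refine Finset.sum_eq_zero fun a _ => Forms_zero T hT _ l fun hj => h ?_
  apply hj
  rw [update_of_ne h, update_self, update_self]

theorem Forms_swap (T : V k n m) (hT : T ∈ Forms k n m) (i : Fin k → Fin n) (l : Fin m) :
    ∑ s : Fin k, ∑ t : Fin k, (if s = t then 0 else T (i ∘ Equiv.swap s t, l))
      = 2 * (-((k : ℝ) * (k - 1)) / 2) * T (i, l) := by
  have h1 : ∀ s t : Fin k, (if s = t then 0 else T (i ∘ Equiv.swap s t, l))
      = (if s = t then T (i, l) else 0) - T (i, l) := by
    intro s t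
    split_ifs with h
    · ring
    · rw [hT s t h]
      ring
  simp only [h1, Finset.sum_sub_distrib]
  simp
  ring

theorem Forms_perm (T : V k n m) (hT : T ∈ Forms k n m) (σ : Equiv.Perm (Fin k)) (l : Fin m) :
    ∀ i : Fin k → Fin n, T (i ∘ σ, l) = (Equiv.Perm.sign σ : ℝ) * T (i, l) := by
  induction σ using Equiv.Perm.swap_induction_on with
  | one =>
    intro i
    simp
  | swap_mul f x y hxy ih =>
    intro i
    have h1 : i ∘ ((Equiv.swap x y * f : Equiv.Perm (Fin k)) : Fin k → Fin k)
        = (i ∘ Equiv.swap x y) ∘ f := rfl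
    rw [h1, ih, hT x y hxy, Equiv.Perm.sign_mul, Equiv.Perm.sign_swap hxy]
    simp

/-! ### The dimension -/

/-- The index sets. -/
abbrev Idx (k n m : ℕ) := {S : Finset (Fin n) // S.card = k} × Fin m

/-- The values at increasing indices. -/
noncomputable def ev (k n m : ℕ) : Forms k n m →ₗ[ℝ] (Idx k n m → ℝ) where
  toFun T p := (T : V k n m) (p.1.1.orderEmbOfFin p.1.2, p.2)
  map_add' T T' := by
    ext p
    simp
  map_smul' c T := by
    ext p
    simp

theorem ev_injective : Injective (ev k n m) := by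
  rw [← LinearMap.ker_eq_bot, LinearMap.ker_eq_bot']
  intro T hT
  apply Subtype.ext
  ext ⟨i, l⟩
  by_cases hi : Injective i
  · have hcard : (Finset.univ.image i).card = k := by
      rw [Finset.card_image_of_injective _ hi, Finset.card_univ, Fintype.card_fin]
    let σ : Equiv.Perm (Fin k) := Tuple.sort i
    have hmono : StrictMono (i ∘ σ) :=
      (Tuple.monotone_sort i).strictMono_of_injective (hi.comp σ.injective)
    have h1 : i ∘ σ = (Finset.univ.image i).orderEmbOfFin hcard := by
      refine Finset.orderEmbOfFin_unique hcard (fun x => ?_) hmono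
      exact Finset.mem_image_of_mem _ (Finset.mem_univ _)
    have h2 := congrFun hT (⟨Finset.univ.image i, hcard⟩, l)
    change (T : V k n m) (((Finset.univ.image i).orderEmbOfFin hcard : Fin k → Fin n), l) = 0 at h2
    rw [← h1, Forms_perm T T.2 σ l i] at h2
    rcases mul_eq_zero.mp h2 with h3 | h3
    · exfalso
      rcases Int.units_eq_one_or (Equiv.Perm.sign σ) with h4 | h4 <;> simp [h4] at h3
    · exact h3
  · exact Forms_zero T T.2 i l hi

/-- The antisymmetrized tensor. -/
noncomputable def wedge (f : Idx k n m → ℝ) : V k n m :=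
  WithLp.toLp 2 fun p => ∑ S : {S : Finset (Fin n) // S.card = k}, f (S, p.2) *
    ∑ σ : Equiv.Perm (Fin k), if p.1 ∘ σ = S.1.orderEmbOfFin S.2 then (Equiv.Perm.sign σ : ℝ) else 0

theorem wedge_apply (f : Idx k n m → ℝ) (i : Fin k → Fin n) (l : Fin m) :
    wedge f (i, l) = ∑ S : {S : Finset (Fin n) // S.card = k}, f (S, l) *
      ∑ σ : Equiv.Perm (Fin k),
        if i ∘ σ = S.1.orderEmbOfFin S.2 then (Equiv.Perm.sign σ : ℝ) else 0 := rfl

theorem wedge_mem (f : Idx k n m → ℝ) : wedge f ∈ Forms k n m := by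
  intro s t h i l
  rw [wedge_apply, wedge_apply, ← Finset.sum_neg_distrib]
  refine Finset.sum_congr rfl fun S _ => ?_
  rw [← mul_neg, ← Finset.sum_neg_distrib]
  congr 1
  refine Fintype.sum_equiv (Equiv.mulLeft (Equiv.swap s t)) _ _ fun σ => ?_
  rw [Equiv.coe_mulLeft, Equiv.Perm.sign_mul, Equiv.Perm.sign_swap h]
  have h1 : i ∘ ((Equiv.swap s t * σ : Equiv.Perm (Fin k)) : Fin k → Fin k)
      = (i ∘ Equiv.swap s t) ∘ σ := rfl
  rw [h1]
  split_ifs <;> simp

theorem ev_wedge (f : Idx k n m → ℝ) : ev k n m ⟨wedge f, wedge_mem f⟩ = f := by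
  funext ⟨S', l⟩
  change wedge f ((S'.1.orderEmbOfFin S'.2 : Fin k → Fin n), l) = f (S', l)
  rw [wedge_apply, Finset.sum_eq_single S']
  · rw [Finset.sum_eq_single 1]
    · simp
    · intro σ _ hσ
      rw [if_neg]
      intro h
      apply hσ
      ext u
      have h1 := congrFun h u
      rw [comp_apply] at h1
      have h2 := (S'.1.orderEmbOfFin S'.2).injective h1
      simp [h2]
    · simp
  · intro S _ hS
    rw [Finset.sum_eq_zero, mul_zero]
    intro σ _
    rw [if_neg]
    intro h
    apply hS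
    apply Subtype.ext
    have h1 : Set.range (S.1.orderEmbOfFin S.2) = Set.range (S'.1.orderEmbOfFin S'.2) := by
      rw [← h, Set.range_comp, σ.surjective.range_eq, Set.image_univ]
    rw [Finset.range_orderEmbOfFin, Finset.range_orderEmbOfFin] at h1
    exact_mod_cast h1
  · simp

/-- **The dimension of the space of forms.** -/
theorem finrank_Forms : Module.finrank ℝ (Forms k n m) = m * n.choose k := by
  have h1 : Bijective (ev k n m) := ⟨ev_injective, fun f => ⟨⟨wedge f, wedge_mem f⟩, ev_wedge f⟩⟩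
  rw [(LinearEquiv.ofBijective (ev k n m) h1).finrank_eq, Module.finrank_fintype_fun_eq_card,
    Fintype.card_prod, Fintype.card_fin, Fintype.card_finset_len, Fintype.card_fin, mul_comm]

end Pool.Agent.V11263.Ten
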