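import Mathlib
import Pool.Agent.V11263.Ten.A4

set_option autoImplicit false

/-!
# Covering numbers: irreducible families, forms
-/

namespace Pool.Agent.V11263.Ten

open scoped InnerProductSpace Matrix Topology
open Pool.Agent.TH591.Lie Function Filter Module

/-! ### Irreducible families -/

theorem schur {E : Type*} [NormedAddCommGroup E] [InnerProductSpace ℝ E] [FiniteDimensional ℝ E]
    {ι : Type*} [Fintype ι] (hd : 2 ≤ finrank ℝ E) (X : ι → E →L[ℝ] E)
    (hX : ∀ i x y, ⟪X i x, y⟫_ℝ = -⟪x, X i y⟫_ℝ) (c : ι → ι → ι → ℝ)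
    (hc : ∀ i j x, X i (X j x) - X j (X i x) = ∑ k, c i j k • X k x)
    (hanti : ∀ i j k, c i j k = -c k j i)
    (hirr : ∀ F : Submodule ℝ E, (∀ i, ∀ x ∈ F, X i x ∈ F) → F = ⊥ ∨ F = ⊤) :
    ∃ q : ℝ, 0 < q ∧ (∀ x, -∑ i, X i (X i x) = q • x) ∧ ∀ x, ∑ i, ‖X i x‖ ^ 2 = q * ‖x‖ ^ 2 := by
  have hnt : Nontrivial E := Module.nontrivial_of_finrank_pos (R := ℝ) (by omega)
  let C : E →ₗ[ℝ] E := -∑ i, (X i : E →ₗ[ℝ] E) ∘ₗ (X i : E →ₗ[ℝ] E)
  have hC : ∀ x, C x = -∑ i, X i (X i x) := by
    intro x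
    simp [C]
  have hsym : C.IsSymmetric := by
    intro x y
    rw [hC, hC, inner_neg_left, inner_neg_right, sum_inner, inner_sum]
    congr 1
    refine Finset.sum_congr rfl fun i _ => ?_
    rw [hX, hX, neg_neg]
  have hev := hsym.hasEigenvalue_iSup_of_finiteDimensional
  set q := (⨆ x : { x : E // x ≠ 0 }, RCLike.re ⟪C x, x⟫_ℝ / ‖(x : E)‖ ^ 2 : ℝ) with hqdef
  have hF := hirr (End.eigenspace C ((q : ℝ) : ℝ)) (by
    intro j x hx
    rw [End.mem_eigenspace_iff] at hx ⊢
    have h1 := casimir_comm X c hc hanti j x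
    have h2 : C (X j x) = X j (C x) := by
      rw [hC, hC, map_neg, map_sum, h1]
    rw [h2, hx]
    simp)
  have htop : End.eigenspace C ((q : ℝ) : ℝ) = ⊤ := by
    rcases hF with h | h
    · exact absurd h hev
    · exact h
  have hall : ∀ x, C x = q • x := by
    intro x
    have h1 : x ∈ End.eigenspace C ((q : ℝ) : ℝ) := by
      rw [htop]
      trivial
    exact End.mem_eigenspace_iff.mp h1
  have hsum : ∀ x, ∑ i, ‖X i x‖ ^ 2 = q * ‖x‖ ^ 2 := by
    intro x
    have h1 : ⟪C x, x⟫_ℝ = ∑ i, ‖X i x‖ ^ 2 := by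
      rw [hC, inner_neg_left, sum_inner, ← Finset.sum_neg_distrib]
      refine Finset.sum_congr rfl fun i _ => ?_
      rw [hX, neg_neg, real_inner_self_eq_norm_sq]
    rw [← h1, hall, real_inner_smul_left, real_inner_self_eq_norm_sq]
  refine ⟨q, ?_, fun x => by rw [← hC, hall], hsum⟩
  obtain ⟨x, hx⟩ := exists_ne (0 : E)
  have hx2 : 0 < ‖x‖ ^ 2 := by positivity
  have h0 : 0 ≤ q := by
    have h1 : 0 ≤ q * ‖x‖ ^ 2 := by
      rw [← hsum x]
      exact Finset.sum_nonneg fun i _ => sq_nonneg _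
    exact nonneg_of_mul_nonneg_left h1 hx2
  rcases eq_or_lt_of_le h0 with h1 | h1
  · exfalso
    have h2 : ∀ i y, X i y = 0 := by
      intro i y
      have h3 := hsum y
      rw [← h1, zero_mul, Finset.sum_eq_zero_iff_of_nonneg fun i _ => sq_nonneg _] at h3
      have h4 := h3 i (Finset.mem_univ i)
      exact norm_eq_zero.mp (pow_eq_zero_iff two_ne_zero |>.mp h4)
    rcases hirr (ℝ ∙ x) (by
      intro i y _
      rw [h2]
      exact Submodule.zero_mem _) with h3 | h3
    · exact hx (Submodule.span_singleton_eq_bot.mp h3)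
    · have h4 := finrank_span_singleton (K := ℝ) hx
      rw [h3, finrank_top] at h4
      omega
  · exact h1

/-! ### Forms -/

variable {k n m : ℕ}

theorem choose_two_le (hk : 1 ≤ k) (hkn : k < n) : 2 ≤ n.choose k := by
  obtain ⟨k', rfl⟩ := Nat.exists_eq_add_of_le' hk
  obtain ⟨n', rfl⟩ := Nat.exists_eq_add_of_le' (show 1 ≤ n by omega)
  rw [Nat.choose_succ_succ']
  have h1 := Nat.choose_pos (show k' ≤ n' by omega)
  have h2 := Nat.choose_pos (show k' + 1 ≤ n' by omega)
  omega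

theorem two_le_finrank (hk : 1 ≤ k) (hkn : k < n) (hm : 1 ≤ m) :
    2 ≤ finrank ℝ (Forms k n m) := by
  rw [finrank_Forms]
  have := choose_two_le hk hkn
  nlinarith

section

variable {E : Type*} [NormedAddCommGroup E] [InnerProductSpace ℝ E] [FiniteDimensional ℝ E]

/-- The dimension of an isometric copy of the space of forms. -/
theorem finrank_copy (J : E →ₗᵢ[ℝ] V k n m) (hJ : ∀ T, T ∈ Set.range J ↔ T ∈ Forms k n m) :
    finrank ℝ E = m * n.choose k := by
  have h1 : LinearMap.range J.toLinearMap = Forms k n m := by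
    ext T
    exact hJ T
  rw [← finrank_Forms, ← h1]
  exact J.equivRange.toLinearEquiv.finrank_eq

theorem copy_rot (J : E →ₗᵢ[ℝ] V k n m) (hJ : ∀ T, T ∈ Set.range J ↔ T ∈ Forms k n m)
    (U : Matrix (Fin n) (Fin n) ℝ) (x : E) : ∃ y : E, J y = rotT U (J x) :=
  (hJ _).mpr (Forms_rot U (J x) ((hJ _).mp ⟨x, rfl⟩))

/-- **Bodies in spaces of forms.** -/
theorem cover_forms (J : E →ₗᵢ[ℝ] V k n m) (hJ : ∀ T, T ∈ Set.range J ↔ T ∈ Forms k n m)
    (hk : 1 ≤ k) (hkn : k < n) (hm : 1 ≤ m) (K : Set E)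
    (hK : Convex ℝ K) (hKc : IsCompact K) (hKi : (interior K).Nonempty)
    (a : ℝ) (ha : 0 < a) (hKa : ∀ x ∈ K, -(a⁻¹ • x) ∈ K)
    (hinv : ∀ U ∈ Matrix.specialOrthogonalGroup (Fin n) ℝ, ∀ x ∈ K, ∀ y : E,
      J y = rotT U (J x) → y ∈ K) :
    ∃ S : Finset E, K ⊆ ⋃ t ∈ S, (fun x => t + x) '' interior K ∧
      (S.card : ℝ) ≤ 1 + 13 * finrank ℝ E * Real.log (2 * finrank ℝ E ^ 2
        + 2 * finrank ℝ E + 1) * 2 ^ finrank ℝ E
        * Real.exp (-(((n : ℝ) - k) / (960 * (1 + a) ^ 2))) := by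
  have hk' : (1 : ℝ) ≤ k := by exact_mod_cast hk
  have hk0 : (0 : ℝ) < k := by linarith
  have hkn' : (k : ℝ) < n := by exact_mod_cast hkn
  have hmem : ∀ x, J x ∈ Forms k n m := fun x => (hJ _).mp ⟨x, rfl⟩
  have e1 : (n : ℝ) - 1 + 2 * (-((k : ℝ) * (k - 1)) / 2) / k = n - k := by
    field_simp
    ring
  have hd : 2 ≤ finrank ℝ E := by
    rw [finrank_copy J hJ, ← finrank_Forms]
    exact two_le_finrank hk hkn hm
  have h := cover_typ J (fun U _ x => copy_rot J hJ U x) (r := 1) (fun _ => 0)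
    (-((k : ℝ) * (k - 1)) / 2)
    (fun x g s _ t _ hst i l => hmem x s t hst i l)
    (fun x s t hst i l => Forms_trace _ (hmem x) s t hst i l)
    (fun x i l => Forms_swap _ (hmem x) i l) hk (by rw [e1]; linarith) K
    hd hK hKc hKi a ha hKa hinv
  rw [e1, Nat.cast_one, mul_one] at h
  exact h

end

theorem rot_diag (ε : Fin n → ℝ) (T : V k n m) (i : Fin k → Fin n) (l : Fin m) :
    rotT (Matrix.diagonal ε) T (i, l) = (∏ s, ε (i s)) * T (i, l) := by
  rw [rotT_apply, Finset.sum_eq_single i]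
  · simp
  · intro j _ hj
    obtain ⟨s, hs⟩ := Function.ne_iff.mp hj
    rw [Finset.prod_eq_zero (Finset.mem_univ s), zero_mul]
    exact Matrix.diagonal_apply_ne _ (Ne.symm hs)
  · simp

theorem sum_sign (hk : Odd k) (j : Fin k → Fin n) (hj : Injective j) :
    ∑ i : Fin n, ∏ s, (if j s = i then (1 : ℝ) else -1) = 2 * k - n := by
  have h1 : ∀ i : Fin n, ∏ s, (if j s = i then (1 : ℝ) else -1)
      = 2 * (∑ s, if j s = i then (1 : ℝ) else 0) - 1 := by
    intro i
    by_cases hi : ∃ s0, j s0 = i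
    · obtain ⟨s0, rfl⟩ := hi
      have h2 : ∀ s, (j s = j s0) = (s = s0) := fun s => propext hj.eq_iff
      simp only [h2, Finset.sum_ite_eq', Finset.mem_univ, if_true]
      rw [Finset.prod_ite, Finset.prod_const_one, one_mul, Finset.prod_const]
      have h3 : (Finset.univ.filter fun s : Fin k => ¬ s = s0).card = k - 1 := by
        rw [Finset.filter_ne', Finset.card_erase_of_mem (Finset.mem_univ s0), Finset.card_univ,
          Fintype.card_fin]
      rw [h3, (Nat.Odd.sub_odd hk odd_one).neg_one_pow]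
      norm_num
    · push Not at hi
      simp only [hi, if_false, Finset.sum_const_zero, mul_zero, Finset.prod_const]
      rw [Finset.card_univ, Fintype.card_fin, hk.neg_one_pow]
      norm_num
  simp only [h1, Finset.sum_sub_distrib, ← Finset.mul_sum]
  rw [Finset.sum_comm]
  simp

/-- An invariant convex set of forms of odd degree is almost symmetric. -/
theorem almost_symm {E : Type*} [NormedAddCommGroup E] [InnerProductSpace ℝ E]
    [FiniteDimensional ℝ E] (J : E →ₗᵢ[ℝ] V k n m)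
    (hJ : ∀ T, T ∈ Set.range J ↔ T ∈ Forms k n m)
    (hk : Odd k) (hkn : 2 * k < n) (K : Set E) (hK : Convex ℝ K)
    (hinv : ∀ U ∈ Matrix.specialOrthogonalGroup (Fin n) ℝ, ∀ x ∈ K, ∀ y : E,
      J y = rotT U (J x) → y ∈ K) (x : E)
    (hx : x ∈ K) : -(((n : ℝ) / (n - 2 * k))⁻¹ • x) ∈ K := by
  have hn' : 2 * (k : ℝ) < n := by exact_mod_cast hkn
  have hk0 : (0 : ℝ) ≤ k := Nat.cast_nonneg k
  have hn0 : (0 : ℝ) < n := by linarith
  have h4 : (n : ℝ) - 2 * k ≠ 0 := by linarith
  rcases Nat.even_or_odd n with he | ho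
  · -- `-1` is a rotation
    have h1 : -x ∈ K := by
      refine hinv _ (Y368.Lie.diag_mem (fun _ => -1) (fun _ => by norm_num) (by
        rw [Finset.prod_const, Finset.card_univ, Fintype.card_fin, he.neg_one_pow])) x hx _ ?_
      ext ⟨i, l⟩
      rw [rot_diag, Finset.prod_const, Finset.card_univ, Fintype.card_fin, hk.neg_one_pow]
      simp
    have h := hK h1 hx (a := 1 - k / (n : ℝ)) (b := k / (n : ℝ))
      (by rw [sub_nonneg, div_le_one hn0]; linarith) (by positivity) (by ring)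
    have e : (1 - k / (n : ℝ)) • -x + (k / (n : ℝ)) • x = -(((n : ℝ) / (n - 2 * k))⁻¹ • x) := by
      rw [smul_neg, ← sub_eq_neg_add, ← neg_sub, ← sub_smul]
      congr 2
      field_simp
      ring
    rwa [e] at h
  · -- the average of the diagonal matrices with all entries except one equal to `-1`
    choose y hy using fun j : Fin n =>
      copy_rot J hJ (Matrix.diagonal fun i : Fin n => if i = j then (1 : ℝ) else -1) x
    have h1 : ∀ j : Fin n, y j ∈ K := by
      intro j
      refine hinv _ (Y368.Lie.diag_mem _ (fun i => ?_) ?_) x hx _ (hy j)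
      · split_ifs <;> norm_num
      · rw [Finset.prod_ite, Finset.prod_const_one, one_mul, Finset.prod_const]
        have : (Finset.univ.filter fun i => ¬ i = j).card = n - 1 := by
          rw [Finset.filter_ne', Finset.card_erase_of_mem (Finset.mem_univ j), Finset.card_univ,
            Fintype.card_fin]
        rw [this]
        exact (Nat.Odd.sub_odd ho odd_one).neg_one_pow
    have h2 : ∑ j : Fin n, (1 / (n : ℝ)) • y j ∈ K := by
      refine hK.sum_mem (fun _ _ => by positivity) ?_ fun j _ => h1 j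
      rw [Finset.sum_const, Finset.card_univ, Fintype.card_fin, nsmul_eq_mul]
      field_simp
    have e : ∑ j : Fin n, (1 / (n : ℝ)) • y j = -(((n : ℝ) / (n - 2 * k))⁻¹ • x) := by
      apply J.injective
      rw [map_sum, map_neg, map_smul]
      simp only [map_smul, hy]
      ext ⟨i, l⟩
      rw [WithLp.ofLp_sum, Finset.sum_apply]
      simp only [PiLp.smul_apply, PiLp.neg_apply, smul_eq_mul, rot_diag]
      rw [← Finset.mul_sum, ← Finset.sum_mul]
      by_cases hi : Injective i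
      · rw [sum_sign hk i hi]
        field_simp
        ring
      · rw [Forms_zero (J x) ((hJ _).mp ⟨x, rfl⟩) i l hi]
        simp
    rwa [e] at h2

theorem odd_num (k n : ℝ) (hk : 0 ≤ k) (hkn : 2 * k < n) :
    (n - 3 * k) / 3840 ≤ (n - k) / (960 * (1 + n / (n - 2 * k)) ^ 2) := by
  have h2 : 0 < n - 2 * k := by linarith
  have h1 : 0 < n - k := by linarith
  have e : (n - k) / (960 * (1 + n / (n - 2 * k)) ^ 2) = (n - 2 * k) ^ 2 / (3840 * (n - k)) := by
    have h3 : 1 + n / (n - 2 * k) = 2 * (n - k) / (n - 2 * k) := by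
      field_simp
      ring
    rw [h3]
    field_simp
    ring
  rw [e, div_le_div_iff₀ (by norm_num) (by positivity)]
  nlinarith [sq_nonneg k]

/-- The logarithm of a binomial coefficient. -/
theorem log_choose (hk : 1 ≤ k) (hkn : 200000 * k ≤ n) :
    Real.log (n.choose k) ≤ 13.3 * (n / 200000 : ℝ) := by
  have hk' : (1 : ℝ) ≤ k := by exact_mod_cast hk
  have hk0 : (0 : ℝ) < k := by linarith
  have hkn' : 200000 * (k : ℝ) ≤ n := by exact_mod_cast hkn
  have hn0 : (0 : ℝ) < n := by linarith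
  have hpos : (0 : ℝ) < n.choose k := by
    exact_mod_cast Nat.choose_pos (show k ≤ n by omega)
  have h1 : (n.choose k : ℝ) ≤ (n : ℝ) ^ k / k.factorial := Nat.choose_le_pow_div k n
  have h2 : (k : ℝ) ^ k / k.factorial ≤ Real.exp k := Real.pow_div_factorial_le_exp (k : ℝ) hk0.le k
  have h3 : (n : ℝ) ^ k / k.factorial = ((n : ℝ) / k) ^ k * ((k : ℝ) ^ k / k.factorial) := by
    rw [div_pow]
    field_simp
  have h4 : (n.choose k : ℝ) ≤ ((n : ℝ) / k) ^ k * Real.exp k := by
    rw [h3] at h1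
    exact h1.trans (mul_le_mul_of_nonneg_left h2 (by positivity))
  have h5 : Real.log (n.choose k) ≤ k * Real.log ((n : ℝ) / k) + k := by
    have := Real.log_le_log hpos h4
    rwa [Real.log_mul (by positivity) (Real.exp_ne_zero _), Real.log_pow, Real.log_exp] at this
  have h6 : Real.log ((n : ℝ) / k) ≤ 18 * Real.log 2 + ((n : ℝ) / k / 2 ^ 18 - 1) := by
    have h7 := Real.log_le_sub_one_of_pos (show (0 : ℝ) < (n : ℝ) / k / 2 ^ 18 by positivity)
    rw [Real.log_div (by positivity) (by positivity), Real.log_pow] at h7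
    push_cast at h7 ⊢
    linarith
  have h8 : (k : ℝ) * Real.log ((n : ℝ) / k)
      ≤ k * (18 * Real.log 2 + ((n : ℝ) / k / 2 ^ 18 - 1)) :=
    mul_le_mul_of_nonneg_left h6 hk0.le
  have h9 : (k : ℝ) * (18 * Real.log 2 + ((n : ℝ) / k / 2 ^ 18 - 1))
      = k * (18 * Real.log 2) + n / 2 ^ 18 - k := by
    field_simp
    ring
  have h10 := Real.log_two_lt_d9
  have h11 : (k : ℝ) * (18 * Real.log 2) ≤ k * 12.48 :=
    mul_le_mul_of_nonneg_left (by linarith) hk0.le
  have h12 : (k : ℝ) * 12.48 ≤ n / 200000 * 12.48 := by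
    have : (k : ℝ) ≤ n / 200000 := by
      rw [le_div_iff₀ (by norm_num)]
      linarith
    exact mul_le_mul_of_nonneg_right this (by norm_num)
  have h13 : (n : ℝ) / 2 ^ 18 ≤ 0.77 * (n / 200000) := by
    rw [div_le_iff₀ (by norm_num)]
    nlinarith
  linarith

/-- The numerical condition for forms of degree up to `n / 200000`. -/
theorem num_forms (hk : 1 ≤ k) (hkn : 200000 * k ≤ n) (hm : 1 ≤ m)
    (hmn : (m : ℝ) ≤ Real.exp (n / 20000)) :
    5 + 2 * Real.log ((m * n.choose k : ℕ) : ℝ) ≤ ((n : ℝ) - 3 * k) / 3840 := by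
  have hk' : (1 : ℝ) ≤ k := by exact_mod_cast hk
  have hm' : (1 : ℝ) ≤ m := by exact_mod_cast hm
  have hkn' : 200000 * (k : ℝ) ≤ n := by exact_mod_cast hkn
  have hpos : (0 : ℝ) < n.choose k := by
    exact_mod_cast Nat.choose_pos (show k ≤ n by omega)
  have h1 := log_choose hk hkn
  have h2 : Real.log m ≤ n / 20000 := by
    have := Real.log_le_log (by linarith) hmn
    rwa [Real.log_exp] at this
  rw [Nat.cast_mul, Real.log_mul (by positivity) hpos.ne']
  linarith

end Pool.Agent.V11263.Ten
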